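import Pool.Agent.FUR.Stmts

/-! # FUR, row RPW -/

set_option autoImplicit false

namespace Pool.Agent.FUR.H70

lemma exp_neg_le {y : ℝ} (hy : 0 ≤ y) : Real.exp (-y) ≤ 1 - y + y ^ 2 / 2 := by
  have h1 := Real.quadratic_le_exp_of_nonneg hy
  have h2 : Real.exp (-y) * Real.exp y = 1 := by
    rw [← Real.exp_add]; simp
  have h3 : (0 : ℝ) < Real.exp (-y) := Real.exp_pos _
  have h4 : Real.exp (-y) * (1 + y + y ^ 2 / 2) ≤ 1 := by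
    calc Real.exp (-y) * (1 + y + y ^ 2 / 2) ≤ Real.exp (-y) * Real.exp y :=
          mul_le_mul_of_nonneg_left h1 h3.le
      _ = 1 := h2
  have h5 : (0 : ℝ) < 1 + y + y ^ 2 / 2 := by positivity
  have h6 : (1 - y + y ^ 2 / 2) * (1 + y + y ^ 2 / 2) = 1 + y ^ 4 / 4 := by ring
  have h7 : (0 : ℝ) ≤ y ^ 4 / 4 := by positivity
  have h8 : Real.exp (-y) * (1 + y + y ^ 2 / 2) ≤ (1 - y + y ^ 2 / 2) * (1 + y + y ^ 2 / 2) := by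
    rw [h6]; linarith
  exact le_of_mul_le_mul_right h8 h5

lemma one_sub_rpow_le {t θ : ℝ} (ht0 : 0 ≤ t) (ht1 : t ≤ 1) (hθ : 0 ≤ θ) :
    (1 - t) ^ θ ≤ 1 - θ * t + (θ * t) ^ 2 / 2 := by
  have h1 : 1 - t ≤ Real.exp (-t) := by
    have := Real.add_one_le_exp (-t)
    linarith
  have h2 : (1 - t) ^ θ ≤ (Real.exp (-t)) ^ θ :=
    Real.rpow_le_rpow (by linarith) h1 hθ
  rw [← Real.exp_mul] at h2
  have h3 : -t * θ = -(θ * t) := by ring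
  rw [h3] at h2
  exact h2.trans (exp_neg_le (by positivity))

lemma sub_rpow_le {θ : ℝ} (hθ : 0 ≤ θ) {ℓ D D' : ℕ} (hl : 1 ≤ ℓ) (hD : D' ≤ D) (hD' : D' ≤ ℓ) :
    (((ℓ - D : ℕ) : ℝ)) ^ θ ≤
      (ℓ : ℝ) ^ θ * (1 - θ * ((D' : ℝ) / ℓ) + (θ * ((D' : ℝ) / ℓ)) ^ 2 / 2) := by
  have hl0 : (0 : ℝ) < ℓ := by exact_mod_cast hl
  have h1 : (((ℓ - D : ℕ) : ℝ)) ≤ (((ℓ - D' : ℕ) : ℝ)) := by
    exact_mod_cast Nat.sub_le_sub_left hD ℓ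
  have h2 : (((ℓ - D' : ℕ) : ℝ)) = (ℓ : ℝ) * (1 - (D' : ℝ) / ℓ) := by
    rw [Nat.cast_sub hD']
    field_simp
  have h3 : (D' : ℝ) / ℓ ≤ 1 := by
    rw [div_le_one hl0]; exact_mod_cast hD'
  have h4 : (0 : ℝ) ≤ (D' : ℝ) / ℓ := by positivity
  calc (((ℓ - D : ℕ) : ℝ)) ^ θ ≤ (((ℓ - D' : ℕ) : ℝ)) ^ θ :=
        Real.rpow_le_rpow (Nat.cast_nonneg _) h1 hθ
    _ = (ℓ : ℝ) ^ θ * (1 - (D' : ℝ) / ℓ) ^ θ := by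
        rw [h2, Real.mul_rpow hl0.le (by linarith)]
    _ ≤ _ := mul_le_mul_of_nonneg_left (one_sub_rpow_le h4 h3 hθ)
        (Real.rpow_nonneg hl0.le _)

/-- row RPW -/
theorem rpw : RPWStmt := by
  intro θ hθ ℓ m D0 D1 hl hml h0 h1 h3 hD0 hD1
  have hex : ∃ a b : ℕ, a ≤ D0 ∧ b ≤ D1 ∧ a + b = 3 * m ∧ m ≤ a ∧ a ≤ 2 * m ∧ m ≤ b ∧
      b ≤ 2 * m := by
    by_cases ha : 2 * m ≤ D0
    · exact ⟨2 * m, m, ha, h1, by omega, by omega, by omega, by omega, by omega⟩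
    · by_cases hb : 2 * m ≤ D1
      · exact ⟨m, 2 * m, h0, hb, by omega, by omega, by omega, by omega, by omega⟩
      · exact ⟨D0, 3 * m - D0, le_refl _, by omega, by omega, by omega, by omega, by omega,
          by omega⟩
  obtain ⟨a, b, ha, hb, hab, hma, ham, hmb, hbm⟩ := hex
  have hA := sub_rpow_le hθ hl ha (by omega : a ≤ ℓ)
  have hB := sub_rpow_le hθ hl hb (by omega : b ≤ ℓ)
  have hl0 : (0 : ℝ) < ℓ := by exact_mod_cast hl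
  have hL : (0 : ℝ) ≤ (ℓ : ℝ) ^ θ := Real.rpow_nonneg hl0.le _
  have hab' : (a : ℝ) + b = 3 * m := by exact_mod_cast hab
  have hma' : (m : ℝ) ≤ a := by exact_mod_cast hma
  have ham' : (a : ℝ) ≤ 2 * m := by exact_mod_cast ham
  have hb' : (b : ℝ) = 3 * m - a := by linarith
  have hsq : (a : ℝ) ^ 2 + (b : ℝ) ^ 2 ≤ 5 * (m : ℝ) ^ 2 := by
    rw [hb']
    nlinarith [mul_nonneg (sub_nonneg.mpr hma') (sub_nonneg.mpr ham')]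
  have hsum : ((1 - θ * ((a : ℝ) / ℓ) + (θ * ((a : ℝ) / ℓ)) ^ 2 / 2) +
      (1 - θ * ((b : ℝ) / ℓ) + (θ * ((b : ℝ) / ℓ)) ^ 2 / 2)) / 2 ≤
      1 - (3 / 2) * θ * ((m : ℝ) / ℓ) + (5 / 4) * θ ^ 2 * ((m : ℝ) / ℓ) ^ 2 := by
    have e1 : ((1 - θ * ((a : ℝ) / ℓ) + (θ * ((a : ℝ) / ℓ)) ^ 2 / 2) +
      (1 - θ * ((b : ℝ) / ℓ) + (θ * ((b : ℝ) / ℓ)) ^ 2 / 2)) / 2 =
      1 - θ * (((a : ℝ) + b) / ℓ) / 2 + (θ ^ 2 / (4 * (ℓ : ℝ) ^ 2)) * ((a : ℝ) ^ 2 + (b : ℝ) ^ 2) := by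
      field_simp
      ring
    have e2 : 1 - (3 / 2) * θ * ((m : ℝ) / ℓ) + (5 / 4) * θ ^ 2 * ((m : ℝ) / ℓ) ^ 2 =
      1 - θ * ((3 * (m : ℝ)) / ℓ) / 2 + (θ ^ 2 / (4 * (ℓ : ℝ) ^ 2)) * (5 * (m : ℝ) ^ 2) := by
      field_simp
    rw [e1, e2, hab']
    have : (0 : ℝ) ≤ θ ^ 2 / (4 * (ℓ : ℝ) ^ 2) := by positivity
    have := mul_le_mul_of_nonneg_left hsq this
    linarith
  have hfin := mul_le_mul_of_nonneg_left hsum hL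
  calc (((ℓ - D0 : ℕ) : ℝ) ^ θ + ((ℓ - D1 : ℕ) : ℝ) ^ θ) / 2
      ≤ ((ℓ : ℝ) ^ θ * (1 - θ * ((a : ℝ) / ℓ) + (θ * ((a : ℝ) / ℓ)) ^ 2 / 2) +
        (ℓ : ℝ) ^ θ * (1 - θ * ((b : ℝ) / ℓ) + (θ * ((b : ℝ) / ℓ)) ^ 2 / 2)) / 2 := by
        linarith
    _ = (ℓ : ℝ) ^ θ * (((1 - θ * ((a : ℝ) / ℓ) + (θ * ((a : ℝ) / ℓ)) ^ 2 / 2) +
      (1 - θ * ((b : ℝ) / ℓ) + (θ * ((b : ℝ) / ℓ)) ^ 2 / 2)) / 2) := by ring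
    _ ≤ _ := hfin

end Pool.Agent.FUR.H70
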